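import Pool.Agent.H73.CTG.Stmts

/-!
# LVT: transformation of the Levi form
-/

set_option autoImplicit false

open Set Filter Topology

namespace Pool.CTG

theorem lvt14_open {n : ℕ} : IsOpen {z : E n | z ≠ 0} := isOpen_ne

theorem lvt14_G1 {n : ℕ} {f : E n → E n} {d : ℕ} {G : E n → ℝ} (hf : Hyp f d G) {w : E n}
    (hw : w ≠ 0) : DifferentiableAt ℝ G w ∧ DifferentiableAt ℝ (fderiv ℝ G) w := by
  have h1 : ContDiffAt ℝ 2 G w := hf.g2.contDiffAt (lvt14_open.mem_nhds hw)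
  refine ⟨h1.differentiableAt (by norm_num), ?_⟩
  exact (h1.fderiv_right (m := 1) (by norm_num)).differentiableAt (by norm_num)

theorem lvt14_L {n : ℕ} {f : E n → E n} {d : ℕ} {G : E n → ℝ} (hf : Hyp f d G) {w : E n}
    (hw : w ≠ 0) (a : E n) :
    fderiv ℝ (fun y => fderiv ℝ G y a) w a = fderiv ℝ (fderiv ℝ G) w a a := by
  have h := (lvt14_G1 hf hw).2.hasFDerivAt
  have h2 : HasFDerivAt (fun y => fderiv ℝ G y a)
      ((ContinuousLinearMap.apply ℝ ℝ a).comp (fderiv ℝ (fderiv ℝ G) w)) w :=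
    (ContinuousLinearMap.apply ℝ ℝ a).hasFDerivAt.comp w h
  rw [h2.fderiv]
  rfl

theorem lvt14_f {n : ℕ} {f : E n → E n} {d : ℕ} {G : E n → ℝ} (hf : Hyp f d G) (z : E n) :
    HasFDerivAt f ((fderiv ℂ f z).restrictScalars ℝ) z ∧
    ∀ a : E n, HasFDerivAt (fun y => fderiv ℂ f y a)
      (((ContinuousLinearMap.apply ℂ (E n) a).comp
        (fderiv ℂ (fderiv ℂ f) z)).restrictScalars ℝ) z := by
  have h1 : ContDiffAt ℂ 2 f z := hf.cd.contDiffAt
  have h2 : DifferentiableAt ℂ f z := h1.differentiableAt (by norm_num)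
  have h3 : DifferentiableAt ℂ (fderiv ℂ f) z :=
    (h1.fderiv_right (m := 1) (by norm_num)).differentiableAt (by norm_num)
  refine ⟨h2.hasFDerivAt.restrictScalars ℝ, ?_⟩
  intro a
  exact ((ContinuousLinearMap.apply ℂ (E n) a).hasFDerivAt.comp z h3.hasFDerivAt).restrictScalars ℝ

theorem lvt14_first {n : ℕ} {f : E n → E n} {d : ℕ} {G : E n → ℝ} (hf : Hyp f d G) (z a : E n)
    (hz : z ≠ 0) : fderiv ℝ G (f z) (fderiv ℂ f z a) = d * fderiv ℝ G z a := by
  have h1 := (lvt14_G1 hf (hf.nz z hz)).1.hasFDerivAt.comp z (lvt14_f hf z).1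
  have h2 : (G ∘ f) =ᶠ[𝓝 z] fun y => (d : ℝ) * G y := by
    filter_upwards [lvt14_open.mem_nhds hz] with y hy
    exact hf.ge y hy
  have h3 : HasFDerivAt (fun y => (d : ℝ) * G y) ((d : ℝ) • fderiv ℝ G z) z :=
    (lvt14_G1 hf hz).1.hasFDerivAt.const_mul (d : ℝ)
  have h4 := (h1.congr_of_eventuallyEq h2.symm).unique h3
  have h5 := congrArg (fun l => l a) h4
  simpa using h5

theorem lvt14_second {n : ℕ} {f : E n → E n} {d : ℕ} {G : E n → ℝ} (hf : Hyp f d G) (z a : E n)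
    (hz : z ≠ 0) :
    fderiv ℝ (fderiv ℝ G) (f z) (fderiv ℂ f z a) (fderiv ℂ f z a) +
      fderiv ℝ G (f z) (fderiv ℂ (fderiv ℂ f) z a a) =
    d * fderiv ℝ (fderiv ℝ G) z a a := by
  obtain ⟨hf1, hf2⟩ := lvt14_f hf z
  have hc := (lvt14_G1 hf (hf.nz z hz)).2.hasFDerivAt.comp z hf1
  have h1 := hc.clm_apply (hf2 a)
  have h2 : (fun y => (fderiv ℝ G ∘ f) y (fderiv ℂ f y a)) =ᶠ[𝓝 z]
      fun y => (d : ℝ) * fderiv ℝ G y a := by
    filter_upwards [lvt14_open.mem_nhds hz] with y hy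
    exact lvt14_first hf y a hy
  have h3 : HasFDerivAt (fun y => (d : ℝ) * fderiv ℝ G y a)
      ((d : ℝ) • ((ContinuousLinearMap.apply ℝ ℝ a).comp (fderiv ℝ (fderiv ℝ G) z))) z :=
    (((ContinuousLinearMap.apply ℝ ℝ a).hasFDerivAt.comp z
      (lvt14_G1 hf hz).2.hasFDerivAt)).const_mul (d : ℝ)
  have h4 := (h1.congr_of_eventuallyEq h2.symm).unique h3
  have h5 := congrArg (fun l => l a) h4
  simp only [add_apply, ContinuousLinearMap.comp_apply,
    ContinuousLinearMap.flip_apply, ContinuousLinearMap.coe_restrictScalars',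
    ContinuousLinearMap.apply_apply, smul_apply, smul_eq_mul,
    Function.comp_apply] at h5
  rw [← h5]
  ring

theorem LVT_thm : LVTStmt := by
  intro n f d G hf z v hz
  refine ⟨?_, lvt14_first hf z v hz⟩
  have hfz := hf.nz z hz
  unfold L
  rw [lvt14_L hf hfz, lvt14_L hf hfz, lvt14_L hf hz, lvt14_L hf hz, ← map_smul]
  have e1 := lvt14_second hf z v hz
  have e2 := lvt14_second hf z (Complex.I • v) hz
  have e3 : fderiv ℂ (fderiv ℂ f) z (Complex.I • v) (Complex.I • v) =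
      -(fderiv ℂ (fderiv ℂ f) z v v) := by
    rw [map_smul, map_smul, smul_apply, smul_smul, Complex.I_mul_I,
      neg_one_smul]
  rw [e3, map_neg] at e2
  linarith

end Pool.CTG
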