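import Pool.Agent.H73.CTG.Stmts

/-!
# UMP: `f` on `U`
-/

set_option autoImplicit false

open Set Filter Topology

namespace Pool.CTG

theorem ump_euler {n : ℕ} {f : E n → E n} {d : ℕ} {G : E n → ℝ} (hf : Hyp f d G) (z : E n) :
    fderiv ℂ f z z = (d : ℂ) • f z := by
  have h1 : HasDerivAt (fun c : ℂ => c • z) z 1 := by
    have := (hasDerivAt_id (1 : ℂ)).smul_const z
    simpa using this
  have hd : DifferentiableAt ℂ f ((1 : ℂ) • z) :=
    (hf.cd.differentiable (by norm_num)).differentiableAt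
  have h2 : HasDerivAt (fun c : ℂ => f (c • z)) (fderiv ℂ f ((1 : ℂ) • z) z) 1 :=
    hd.hasFDerivAt.comp_hasDerivAt (1 : ℂ) h1
  have h3 : HasDerivAt (fun c : ℂ => c ^ d • f z) (((d : ℂ) * (1 : ℂ) ^ (d - 1)) • f z) 1 :=
    (hasDerivAt_pow d (1 : ℂ)).smul_const (f z)
  have h4 : (fun c : ℂ => f (c • z)) = fun c : ℂ => c ^ d • f z := funext fun c => hf.hom c z
  rw [h4] at h2
  have h5 := h2.unique h3
  rw [one_smul, one_pow, mul_one] at h5
  exact h5

theorem ump_zero {n : ℕ} (G : E n → ℝ) (z : E n) : L G z 0 = 0 := by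
  unfold L
  rw [smul_zero, map_zero, add_zero]

theorem UMP_thm (h1 : LVTStmt) : UMPStmt := by
  intro n f d G hf
  have hd0 : (0 : ℝ) < d := by
    have := hf.hd
    exact_mod_cast (by omega : 0 < d)
  have hinj : ∀ z ∈ U G, ∀ v, fderiv ℂ f z v = 0 → v = 0 := by
    intro z hz v hv
    have h2 := (h1 n f d G hf z v hz.1).1
    rw [hv, ump_zero] at h2
    have h3 : L G z v = 0 := by
      rcases mul_eq_zero.1 h2.symm with h | h
      · exact absurd h hd0.ne'
      · exact h
    by_cases hc : ∃ c : ℂ, v = c • z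
    · obtain ⟨c, rfl⟩ := hc
      rw [map_smul, ump_euler hf, smul_smul] at hv
      rcases smul_eq_zero.1 hv with h | h
      · rcases mul_eq_zero.1 h with h | h
        · rw [h, zero_smul]
        · have h4 : (d : ℂ) ≠ 0 := by
            have := hf.hd
            exact_mod_cast (by omega : d ≠ 0)
          exact absurd h h4
      · exact absurd h (hf.nz z hz.1)
    · have := hz.2 v hc
      rw [h3] at this
      exact absurd this (lt_irrefl _)
  have hbij : ∀ z ∈ U G, Function.Bijective (fderiv ℂ f z) := by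
    intro z hz
    have hi : Function.Injective (fderiv ℂ f z) := by
      rw [injective_iff_map_eq_zero]
      exact hinj z hz
    exact ⟨hi, (LinearMap.injective_iff_surjective (f := (fderiv ℂ f z).toLinearMap)).1 hi⟩
  refine ⟨?_, hbij⟩
  intro z hz
  refine ⟨hf.nz z hz.1, ?_⟩
  intro w hw
  obtain ⟨v, rfl⟩ := (hbij z hz).2 w
  rw [(h1 n f d G hf z v hz.1).1]
  refine mul_pos hd0 (hz.2 v ?_)
  rintro ⟨c, rfl⟩
  exact hw ⟨c * d, by rw [map_smul, ump_euler hf, smul_smul]⟩

end Pool.CTG
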